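import Pool.Agent.LibDiag.Final

namespace Pool.Agent.Results.MP_215185_al.NotResF

open Pool.Agent.LibDiag

/-- For the semigroup presentation `P3 = ⟨x | x = x², x = x³⟩` and every base word `w`, the diagram
group `D(P3, w)` contains an element `g ≠ 1` that is sent to `1` by every homomorphism to
Thompson's group `F`. So not every diagram group is residually `F`. -/
theorem result (w : Vtx P3) :
    ∃ g : DiagramGroup P3 w, g ≠ 1 ∧ ∀ φ : DiagramGroup P3 w →* ThompsonF, φ g = 1 := by
  obtain ⟨g, h1, h2⟩ := all_base w
  refine ⟨g, h1, fun φ => ?_⟩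
  have h3 := h2 ((Subgroup.inclusion ThompsonF_le_PLplus).comp φ)
  have h4 : Subgroup.inclusion ThompsonF_le_PLplus (φ g) = 1 := h3
  exact (Subgroup.inclusion_injective ThompsonF_le_PLplus) (h4.trans (map_one _).symm)

end Pool.Agent.Results.MP_215185_al.NotResF
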