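import Pool.Agent.LibDiag.Final

namespace Pool.Agent.Results.MP_215185_al.NotResPL

open Pool.Agent.LibDiag

/-- For the semigroup presentation `P3 = ⟨x | x = x², x = x³⟩` and every base word `w`, the diagram
group `D(P3, w)` contains an element `g ≠ 1` that is sent to `1` by every homomorphism to
`PL₊([0,1])`. So not every diagram group is residually `PL₊([0,1])`. -/
theorem result (w : Vtx P3) :
    ∃ g : DiagramGroup P3 w, g ≠ 1 ∧ ∀ φ : DiagramGroup P3 w →* PLplus, φ g = 1 :=
  all_base w

end Pool.Agent.Results.MP_215185_al.NotResPL
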